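import Pool.Agent.N71.RP.Stm

/-!
# Project RP, leaf TWO: the hyperbola method for `1 * f` with exponent `β` near `1`
-/

set_option autoImplicit false

namespace Pool.Agent.N687.RP

open Finset Pool.Agent.N71.RP

/-- Abel summation against a decreasing nonnegative weight. -/
lemma abel (f c : ℕ → ℝ) (Q : ℝ) (y : ℕ) (hf : ∀ t : ℕ, |∑ n ∈ Finset.Icc 1 t, f n| ≤ Q)
    (hc : ∀ m, y ≤ m → c (m + 1) ≤ c m) (hc0 : ∀ m, y ≤ m → 0 ≤ c m) (w : ℕ) (hw : y ≤ w) :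
    |∑ m ∈ Finset.Ioc y w, f m * c m| ≤ 2 * Q * c y := by
  have hS : ∀ w, y ≤ w → |∑ m ∈ Finset.Ioc y w, f m| ≤ 2 * Q := by
    intro w hw
    have h : ∑ m ∈ Finset.Icc 1 w, f m =
        ∑ m ∈ Finset.Icc 1 y, f m + ∑ m ∈ Finset.Ioc y w, f m := by
      rw [← Finset.sum_union]
      · congr 1
        ext m
        simp only [Finset.mem_union, Finset.mem_Icc, Finset.mem_Ioc]
        omega
      · rw [Finset.disjoint_left]
        intro m
        simp only [Finset.mem_Icc, Finset.mem_Ioc]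
        omega
    have h1 := abs_le.1 (hf w)
    have h2 := abs_le.1 (hf y)
    rw [abs_le]
    constructor <;> linarith [h1.1, h1.2, h2.1, h2.2]
  have hk : ∀ w, y ≤ w →
      |∑ m ∈ Finset.Ioc y w, f m * c m - (∑ m ∈ Finset.Ioc y w, f m) * c w| ≤
        2 * Q * (c y - c w) := by
    intro w hw
    induction w, hw using Nat.le_induction with
    | base => simp
    | succ w hw ih =>
      rw [Finset.sum_Ioc_succ_top hw, Finset.sum_Ioc_succ_top hw]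
      have e : ∑ m ∈ Finset.Ioc y w, f m * c m + f (w + 1) * c (w + 1) -
          (∑ m ∈ Finset.Ioc y w, f m + f (w + 1)) * c (w + 1) =
          (∑ m ∈ Finset.Ioc y w, f m * c m - (∑ m ∈ Finset.Ioc y w, f m) * c w) +
          (∑ m ∈ Finset.Ioc y w, f m) * (c w - c (w + 1)) := by ring
      rw [e]
      have h1 : |(∑ m ∈ Finset.Ioc y w, f m) * (c w - c (w + 1))| ≤
          2 * Q * (c w - c (w + 1)) := by
        rw [abs_mul, abs_of_nonneg (sub_nonneg.2 (hc w hw))]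
        exact mul_le_mul_of_nonneg_right (hS w hw) (sub_nonneg.2 (hc w hw))
      calc _ ≤ _ := abs_add_le _ _
        _ ≤ 2 * Q * (c y - c w) + 2 * Q * (c w - c (w + 1)) := add_le_add ih h1
        _ = _ := by ring
  have h1 := hk w hw
  have h2 : |(∑ m ∈ Finset.Ioc y w, f m) * c w| ≤ 2 * Q * c w := by
    rw [abs_mul, abs_of_nonneg (hc0 w hw)]
    exact mul_le_mul_of_nonneg_right (hS w hw) (hc0 w hw)
  calc |∑ m ∈ Finset.Ioc y w, f m * c m| =
      |(∑ m ∈ Finset.Ioc y w, f m * c m - (∑ m ∈ Finset.Ioc y w, f m) * c w) +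
        (∑ m ∈ Finset.Ioc y w, f m) * c w| := by ring_nf
    _ ≤ _ := abs_add_le _ _
    _ ≤ 2 * Q * (c y - c w) + 2 * Q * c w := add_le_add h1 h2
    _ = _ := by ring

/-- `∑ k^(-β) ≤ N^(1-β) (1 + log N)`. -/
lemma hsum (β : ℝ) (N : ℕ) (h1 : β ≤ 1) :
    ∑ k ∈ Finset.Icc 1 N, (k : ℝ) ^ (-β) ≤ (N : ℝ) ^ (1 - β) * (1 + Real.log N) := by
  have hh := harmonic_le_one_add_log N
  have h2 : ((harmonic N : ℚ) : ℝ) = ∑ k ∈ Finset.Icc 1 N, (k : ℝ)⁻¹ := by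
    rw [harmonic_eq_sum_Icc]
    push_cast
    rfl
  calc ∑ k ∈ Finset.Icc 1 N, (k : ℝ) ^ (-β) ≤
      ∑ k ∈ Finset.Icc 1 N, (N : ℝ) ^ (1 - β) * (k : ℝ)⁻¹ := by
        apply Finset.sum_le_sum
        intro k hk
        rw [Finset.mem_Icc] at hk
        have hk0 : (0 : ℝ) < k := by exact_mod_cast hk.1
        have e : (k : ℝ) ^ (-β) = (k : ℝ) ^ (1 - β) * (k : ℝ)⁻¹ := by
          rw [← Real.rpow_neg_one (k : ℝ), ← Real.rpow_add hk0]
          congr 1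
          ring
        rw [e]
        apply mul_le_mul_of_nonneg_right _ (by positivity)
        exact Real.rpow_le_rpow hk0.le (by exact_mod_cast hk.2) (by linarith)
    _ = (N : ℝ) ^ (1 - β) * ∑ k ∈ Finset.Icc 1 N, (k : ℝ)⁻¹ := by rw [Finset.mul_sum]
    _ ≤ _ := by
        apply mul_le_mul_of_nonneg_left _ (by positivity)
        rw [← h2]
        exact hh

theorem t_TWO (hZET : E_ZET) (hCONV : E_CONV) : E_TWO := by
  intro a ha
  have h3 : 1 ≤ 3 ^ (16 + a) := Nat.one_le_pow _ _ (by norm_num)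
  refine ⟨6 * 3 ^ (16 + a) * (1 + a), by nlinarith, ?_⟩
  intro X hX f hf β hβ hβ1
  have hX8 : 8 ≤ X := by nlinarith
  have hXr : (8 : ℝ) ≤ X := by exact_mod_cast hX8
  have hX0 : (0 : ℝ) < X := by linarith
  have hX1 : (1 : ℝ) ≤ X := by linarith
  have hL2 : 2 ≤ Real.log X := by
    have h1 : Real.log 8 ≤ Real.log X := Real.log_le_log (by norm_num) hXr
    have h2 : Real.log 8 = 3 * Real.log 2 := by
      rw [show (8 : ℝ) = 2 ^ 3 by norm_num, Real.log_pow]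
      norm_num
    have h3 := Real.log_two_gt_d9
    linarith
  have hb12 : 1 / 2 ≤ β := by
    have : 1 / Real.log X ≤ 1 / 2 := one_div_le_one_div_of_le (by norm_num) hL2
    linarith
  obtain ⟨z, hz, hzz⟩ := hZET β hb12 hβ1
  refine ⟨z, hz, ?_⟩
  intro t ht1 ht2
  have hU : (X : ℝ) ^ (1 - β) ≤ 3 := by
    rw [Real.rpow_def_of_pos hX0]
    have h1 : Real.log X * (1 - β) ≤ 1 := by
      have h : 1 - β ≤ 1 / Real.log X := by linarith
      calc Real.log X * (1 - β) ≤ Real.log X * (1 / Real.log X) :=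
            mul_le_mul_of_nonneg_left h (by linarith)
        _ = 1 := by
          rw [mul_one_div, div_self (by linarith)]
    calc Real.exp _ ≤ Real.exp 1 := Real.exp_le_exp.2 h1
      _ ≤ 3 := by
        have := Real.exp_one_lt_d9
        linarith
  have hUj : ∀ j : ℕ, ((X : ℝ) ^ j) ^ (1 - β) ≤ 3 ^ j := by
    intro j
    rw [← Real.rpow_natCast, ← Real.rpow_mul hX0.le, mul_comm, Real.rpow_mul hX0.le,
      Real.rpow_natCast]
    exact pow_le_pow_left₀ (by positivity) hU j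
  have hy : ((X : ℝ) ^ 16) ^ (-β) ≤ 3 ^ 16 / (X : ℝ) ^ 16 := by
    have e : ((X : ℝ) ^ 16) ^ (-β) = ((X : ℝ) ^ 16) ^ (1 - β) * ((X : ℝ) ^ 16)⁻¹ := by
      rw [← Real.rpow_neg_one ((X : ℝ) ^ 16), ← Real.rpow_add (by positivity)]
      congr 1
      ring
    rw [e, div_eq_mul_inv]
    exact mul_le_mul_of_nonneg_right (hUj 16) (by positivity)
  have hE : ∀ s : ℝ, t / ((X ^ 16 : ℕ) : ℝ) ≤ s → s ≤ t →
      |∑ k ∈ Finset.Icc 1 ⌊s⌋₊, (fun _ : ℕ => (1 : ℝ)) k * (k : ℝ) ^ (-β) -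
        1 / (1 - β) * s ^ (1 - β) - z| ≤ 4 * (3 ^ 16 / (X : ℝ) ^ 16) := by
    intro s hs1 hs2
    have hs3 : (X : ℝ) ^ 16 ≤ s := by
      refine le_trans ?_ hs1
      push_cast
      rw [le_div_iff₀ (by positivity)]
      calc (X : ℝ) ^ 16 * (X : ℝ) ^ 16 = (X : ℝ) ^ 32 := by ring
        _ ≤ t := ht1
    have hs4 : 1 ≤ s := le_trans (one_le_pow₀ hX1) hs3
    have h := hzz s hs4
    simp only [one_mul]
    have e : 1 / (1 - β) * s ^ (1 - β) = s ^ (1 - β) / (1 - β) := by ring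
    rw [e]
    refine h.trans ?_
    have h5 : s ^ (-β) ≤ ((X : ℝ) ^ 16) ^ (-β) :=
      Real.rpow_le_rpow_of_nonpos (by positivity) hs3 (by linarith)
    linarith
  have hF : ∀ w : ℕ, X ^ 16 ≤ w →
      |∑ m ∈ Finset.Ioc (X ^ 16) w, f m * (m : ℝ) ^ (-β)| ≤ 2 * 3 ^ 16 / (X : ℝ) ^ 14 := by
    intro w hw
    have hpos : ∀ m : ℕ, X ^ 16 ≤ m → (0 : ℝ) < m := by
      intro m hm
      have : 0 < X ^ 16 := by positivity
      exact_mod_cast lt_of_lt_of_le this hm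
    have h := abel f (fun m => (m : ℝ) ^ (-β)) ((X : ℝ) ^ 2) (X ^ 16) hf.sum
      (fun m hm => Real.rpow_le_rpow_of_nonpos (hpos m hm) (by push_cast; linarith)
        (by linarith)) (fun m hm => by positivity) w hw
    refine h.trans ?_
    push_cast
    calc 2 * (X : ℝ) ^ 2 * ((X : ℝ) ^ 16) ^ (-β) ≤
        2 * (X : ℝ) ^ 2 * (3 ^ 16 / (X : ℝ) ^ 16) :=
          mul_le_mul_of_nonneg_left hy (by positivity)
      _ = 2 * 3 ^ 16 / (X : ℝ) ^ 14 := by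
        rw [show (X : ℝ) ^ 16 = (X : ℝ) ^ 2 * (X : ℝ) ^ 14 by ring]
        field_simp
  have hyx : ((X ^ 16 : ℕ) : ℝ) ≤ t := by
    push_cast
    calc (X : ℝ) ^ 16 ≤ (X : ℝ) ^ 32 := pow_le_pow_right₀ hX1 (by norm_num)
      _ ≤ t := ht1
  have hC := hCONV (fun _ => 1) f β (1 / (1 - β)) z (4 * (3 ^ 16 / (X : ℝ) ^ 16))
    (2 * 3 ^ 16 / (X : ℝ) ^ 14) t (X ^ 16) (Nat.one_le_pow _ _ (by omega)) hyx (by linarith)
    hβ1.le hE hF
  -- the two sums
  have hs : ∀ N : ℕ, 1 ≤ N → (N : ℝ) ≤ (X : ℝ) ^ a →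
      ∑ k ∈ Finset.Icc 1 N, (k : ℝ) ^ (-β) ≤ 3 ^ a * (1 + a * Real.log X) := by
    intro N hN hNa
    have hN0 : (0 : ℝ) < N := by exact_mod_cast hN
    have hN1 : (1 : ℝ) ≤ N := by exact_mod_cast hN
    refine (hsum β N hβ1.le).trans ?_
    have h1 : (N : ℝ) ^ (1 - β) ≤ 3 ^ a :=
      (Real.rpow_le_rpow hN0.le hNa (by linarith)).trans (hUj a)
    have h2 : Real.log N ≤ a * Real.log X := by
      rw [← Real.log_pow]
      exact Real.log_le_log hN0 hNa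
    have h3 : 0 ≤ Real.log N := Real.log_nonneg hN1
    exact mul_le_mul h1 (by linarith) (by linarith) (by positivity)
  have hS1 : ∑ m ∈ Finset.Icc 1 (X ^ 16), |f m| * (m : ℝ) ^ (-β) ≤
      3 ^ a * (1 + a * Real.log X) := by
    refine le_trans ?_ (hs (X ^ 16) (Nat.one_le_pow _ _ (by omega)) ?_)
    · apply Finset.sum_le_sum
      intro m hm
      have h1 : |f m| ≤ 1 := by
        rcases hf.val m with h | h | h <;> rw [h] <;> norm_num
      have h2 : (0 : ℝ) ≤ (m : ℝ) ^ (-β) := by positivity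
      nlinarith
    · push_cast
      exact pow_le_pow_right₀ hX1 (by omega)
  have hS2 : ∑ k ∈ Finset.Icc 1 ⌊t / ((X ^ 16 : ℕ) : ℝ)⌋₊,
      |(fun _ : ℕ => (1 : ℝ)) k| * (k : ℝ) ^ (-β) ≤ 3 ^ a * (1 + a * Real.log X) := by
    have ht0 : 0 ≤ t := le_trans (by positivity) ht1
    have hXp : (1 : ℝ) ≤ ((X ^ 16 : ℕ) : ℝ) := by
      push_cast
      exact one_le_pow₀ hX1
    simp only [abs_one, one_mul]
    apply hs
    · rw [Nat.le_floor_iff (by positivity), Nat.cast_one, le_div_iff₀ (by linarith), one_mul]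
      exact hyx
    · calc ((⌊t / ((X ^ 16 : ℕ) : ℝ)⌋₊ : ℕ) : ℝ) ≤ t / ((X ^ 16 : ℕ) : ℝ) :=
            Nat.floor_le (by positivity)
        _ ≤ t := div_le_self ht0 hXp
        _ ≤ _ := ht2
  have e : ∑ n ∈ Finset.Icc 1 ⌊t⌋₊, r2 f n * (n : ℝ) ^ (-β) -
        la f (X ^ 16) / (1 - β) * t ^ (1 - β) - z * gy f (X ^ 16) β =
      ∑ n ∈ Finset.Icc 1 ⌊t⌋₊, cv f (fun _ => 1) n * (n : ℝ) ^ (-β) -
        1 / (1 - β) * t ^ (1 - β) * la f (X ^ 16) - z * gy f (X ^ 16) β := by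
    have e1 : ∑ n ∈ Finset.Icc 1 ⌊t⌋₊, r2 f n * (n : ℝ) ^ (-β) =
        ∑ n ∈ Finset.Icc 1 ⌊t⌋₊, cv f (fun _ => 1) n * (n : ℝ) ^ (-β) := rfl
    rw [e1]
    ring
  rw [e]
  refine hC.trans ?_
  have hB0 : 0 ≤ 3 ^ a * (1 + a * Real.log X) := by
    have : 0 ≤ Real.log X := by linarith
    positivity
  have hB : 3 ^ a * (1 + a * Real.log X) ≤ 3 ^ a * ((1 + a) * (X : ℝ)) := by
    apply mul_le_mul_of_nonneg_left _ (by positivity)
    have hl : Real.log X ≤ X := (Real.log_le_sub_one_of_pos hX0).trans (by linarith)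
    have ha0 : (0 : ℝ) ≤ a := by positivity
    nlinarith
  have hXX : (6 * 3 ^ (16 + a) * (1 + a) : ℝ) ≤ X := by exact_mod_cast hX
  calc 4 * (3 ^ 16 / (X : ℝ) ^ 16) * ∑ m ∈ Finset.Icc 1 (X ^ 16), |f m| * (m : ℝ) ^ (-β) +
      2 * 3 ^ 16 / (X : ℝ) ^ 14 * ∑ k ∈ Finset.Icc 1 ⌊t / ((X ^ 16 : ℕ) : ℝ)⌋₊,
        |(fun _ : ℕ => (1 : ℝ)) k| * (k : ℝ) ^ (-β) ≤
      4 * (3 ^ 16 / (X : ℝ) ^ 16) * (3 ^ a * (1 + a * Real.log X)) +
      2 * 3 ^ 16 / (X : ℝ) ^ 14 * (3 ^ a * (1 + a * Real.log X)) :=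
        add_le_add (mul_le_mul_of_nonneg_left hS1 (by positivity))
          (mul_le_mul_of_nonneg_left hS2 (by positivity))
    _ ≤ 4 * (3 ^ 16 / (X : ℝ) ^ 14) * (3 ^ a * (1 + a * Real.log X)) +
      2 * 3 ^ 16 / (X : ℝ) ^ 14 * (3 ^ a * (1 + a * Real.log X)) := by
        have h6 : (3 : ℝ) ^ 16 / (X : ℝ) ^ 16 ≤ 3 ^ 16 / (X : ℝ) ^ 14 :=
          div_le_div_of_nonneg_left (by positivity) (by positivity)
            (pow_le_pow_right₀ hX1 (by norm_num))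
        have := mul_le_mul_of_nonneg_right h6 hB0
        nlinarith
    _ = 6 * 3 ^ 16 / (X : ℝ) ^ 14 * (3 ^ a * (1 + a * Real.log X)) := by ring
    _ ≤ 6 * 3 ^ 16 / (X : ℝ) ^ 14 * (3 ^ a * ((1 + a) * (X : ℝ))) :=
        mul_le_mul_of_nonneg_left hB (by positivity)
    _ = (6 * 3 ^ (16 + a) * (1 + a)) * (X : ℝ) / (X : ℝ) ^ 14 := by
        rw [pow_add]
        ring
    _ ≤ (X : ℝ) * (X : ℝ) / (X : ℝ) ^ 14 := by
        apply div_le_div_of_nonneg_right _ (by positivity)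
        exact mul_le_mul_of_nonneg_right hXX hX0.le
    _ = 1 / (X : ℝ) ^ 12 := by
        rw [show (X : ℝ) ^ 14 = (X : ℝ) * (X : ℝ) * (X : ℝ) ^ 12 by ring]
        field_simp
    _ ≤ 1 / (X : ℝ) ^ 8 :=
        one_div_le_one_div_of_le (by positivity) (pow_le_pow_right₀ hX1 (by norm_num))

end Pool.Agent.N687.RP

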